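import Pool.Agent.WAT.Stmts
import Pool.Agent.ATW.Rank2b
import Pool.Agent.Helper38_AT3.POS

/-!
# Squad WAT: row RB2

The theorem for blocks with an abelian defect group which is generated by two elements.
-/

noncomputable section

namespace Pool.Agent.PP.TV.H47

open Pool.Agent.Helper51_AWC Pool.Agent.Helper79_WRA Pool.Agent.PP Pool.Agent.PP.KF
open Pool.Agent.PP.K9 Pool.Agent.PP.K9.H97 Pool.Agent.PP.H75 Pool.Agent.PP.T3

attribute [local instance] Ideal.Quotient.field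

/-- an abelian group with two generators which is an `ℓ`-group is in the class `R2` -/
theorem r2_of_rk2 {ℓ : ℕ} [hℓ : Fact ℓ.Prime] {Q : Type} [Group Q] [Finite Q]
    (hp : IsPGroup ℓ Q) (hR : RK2.Rk2 Q) : TW.R2 ℓ Q := by
  obtain ⟨hc, x, y, hxy⟩ := hR
  refine ⟨inferInstance, hp, hc, ?_⟩
  letI : CommGroup Q := { (inferInstance : Group Q) with mul_comm := hc }
  exact TW.ncard_le hℓ.out.pos (x := x) (y := y) fun q => by
    rw [hxy]
    exact Subgroup.mem_top q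

theorem rb2 (hT : ∀ (ℓ : ℕ) [Fact ℓ.Prime], TW.Tt ℓ) (hS : SE.S2fStmt) : Rb2Stmt := by
  intro ℓ hℓ M _ hM G _ _ e V γ hL hV hR
  have hF : GoodF ℓ (FF M) := H50.fld ℓ hℓ.out M hM
  exact TW.rk2_blk hT hS M hM e hL.blk
    (T3.H38.pos ℓ (FF M) hF G e hL.blk V hL.tp.pg hV hL.tp.gd) V hL.tp
    (r2_of_rk2 hL.tp.pg hR)

end Pool.Agent.PP.TV.H47
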